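import Mathlib
import Pool.Agent.Work.MP_a77be0_co.Sanity

/-!
# The threshold exponent of the point-line Maker-Breaker game is monotone decreasing

For every `α > 0` the threshold exponent `β_c(α)` of the game with `m(t) = t ^ α` and
`b(t) = t ^ β` is `0`.  Hence `β_c` is monotone decreasing on `[0, ∞)`.

The definitions of the game (`HasWinningSegment`, `MakerForces`, `IsTau`, `MakerWin`,
`Rounding`, `betaC`) are in `Pool/Agent/Work/MP_a77be0_co/Defs.lean`.
-/

namespace Pool.Agent.Results.MP_a77be0_co.ThresholdMonotone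

open Pool.Agent.Work.MP_a77be0_co

/-- Rounding down and rounding up are admitted. -/
theorem roundings : Rounding (fun a t => ⌊(t : ℝ) ^ a⌋₊) ∧ Rounding (fun a t => ⌈(t : ℝ) ^ a⌉₊) :=
  ⟨rounding_floor, rounding_ceil⟩

/-- For `α > 0` the exponent `β = 0` is a Maker win, so the supremum defining `β_c(α)` is that
of a nonempty set, and it is attained. -/
theorem maker_win_at_zero {rm rb : ℝ → ℕ → ℕ} (hrm : Rounding rm) (hrb : Rounding rb) {α : ℝ}
    (hα : 0 < α) : MakerWin (rm α) (rb 0) :=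
  makerWin_zero hrm hrb hα

/-- `β_c(α) = 0` for every `α > 0`, and therefore `β_c` is monotone decreasing on `[0, ∞)`. -/
theorem result : ∀ rm rb : ℝ → ℕ → ℕ, Rounding rm → Rounding rb →
    (∀ α : ℝ, 0 < α → betaC rm rb α = 0) ∧
      ∀ α₁ α₂ : ℝ, 0 ≤ α₁ → α₁ < α₂ → betaC rm rb α₂ ≤ betaC rm rb α₁ := by
  intro rm rb hrm hrb
  have h : ∀ α : ℝ, 0 < α → betaC rm rb α = 0 := fun α hα => betaC_eq_zero hrm hrb hα
  refine ⟨h, fun α₁ α₂ h0 h12 => ?_⟩
  rw [h α₂ (lt_of_le_of_lt h0 h12)]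
  exact zero_le

end Pool.Agent.Results.MP_a77be0_co.ThresholdMonotone
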